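import Mathlib

/-!
# MP_3821a3_co : Alon–Tarsi numbers of fully unbalanced hypergraph polynomials

Q1 asks whether `AT(p) ≤ 2⌈ed(H)⌉ + 1` for every field, every hypergraph `H` and every fully
unbalanced hypergraph polynomial `p` of `H`.  The answer is no, and in positive characteristic
`AT(p)` is not bounded by any function of `ed(H)`.
-/

open MvPolynomial

namespace Pool.Agent.Results.MP_3821a3_co.PosCharCounterexample

/-- A finite hypergraph on the vertex set `Fin n`: a finite family of edges (repeated edges are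
allowed), every edge being a set of at least two vertices. -/
structure Hypergraph (n : ℕ) where
  /-- the number of edges, counted with multiplicity -/
  numEdges : ℕ
  /-- the edges -/
  edge : Fin numEdges → Finset (Fin n)
  /-- every edge has at least two vertices -/
  two_le_card : ∀ e, 2 ≤ (edge e).card

variable {n : ℕ}

/-- `|E(X)|`: the number of edges (with multiplicity) contained in `X`. -/
def Hypergraph.edgesIn (H : Hypergraph n) (X : Finset (Fin n)) : ℕ :=
  (Finset.univ.filter fun e => H.edge e ⊆ X).card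

/-- The edge density `ed(H) = max_{∅ ≠ X ⊆ V} |E(X)| / |X|`. -/
def Hypergraph.edgeDensity (H : Hypergraph n) : ℚ≥0 :=
  (Finset.univ.filter fun X : Finset (Fin n) => X.Nonempty).sup
    fun X => (H.edgesIn X : ℚ≥0) / (X.card : ℚ≥0)

/-- The hypergraph is simple when its edges are pairwise distinct. -/
def Hypergraph.IsSimple (H : Hypergraph n) : Prop := Function.Injective H.edge

/-- The polynomial `∏_e ∑_{i ∈ e} a_{e,i} x_i`. -/
noncomputable def Hypergraph.poly {F : Type*} [Field F] (H : Hypergraph n)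
    (a : Fin H.numEdges → Fin n → F) : MvPolynomial (Fin n) F :=
  ∏ e, ∑ i ∈ H.edge e, C (a e i) * X i

/-- The coefficients `a_{e,i}`, `i ∈ e`, are all nonzero. -/
def Hypergraph.NonzeroCoeffs {F : Type*} [Field F] (H : Hypergraph n)
    (a : Fin H.numEdges → Fin n → F) : Prop :=
  ∀ e, ∀ i ∈ H.edge e, a e i ≠ 0

/-- Fully unbalanced: every edge `e` has `i, j ∈ e` with `a_{e,i} ≠ a_{e,j}`. -/
def Hypergraph.FullyUnbalanced {F : Type*} [Field F] (H : Hypergraph n)
    (a : Fin H.numEdges → Fin n → F) : Prop :=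
  ∀ e, ∃ i ∈ H.edge e, ∃ j ∈ H.edge e, a e i ≠ a e j

/-- The Alon–Tarsi number: the minimum, over the exponent vectors `α` of the monomials of `p` of
top degree (`α_1 + ... + α_n = deg p`), of `max {α_1, ..., α_n} + 1`. -/
noncomputable def AT {F : Type*} [Field F] (p : MvPolynomial (Fin n) F) : ℕ :=
  sInf {k | ∃ α ∈ p.support, (∑ i, α i) = p.totalDegree ∧ k = (Finset.univ.sup fun i => α i) + 1}

/-! ### Edge density -/

lemma edgeDensity_le (H : Hypergraph n) (s : ℕ) (hs : 0 < s) (hc : ∀ e, s ≤ (H.edge e).card) :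
    H.edgeDensity ≤ (H.numEdges : ℚ≥0) / s := by
  unfold Hypergraph.edgeDensity
  refine Finset.sup_le ?_
  intro X hX
  by_cases h0 : H.edgesIn X = 0
  · rw [h0]; simp
  · have hne : (Finset.univ.filter fun e => H.edge e ⊆ X).Nonempty := by
      rw [← Finset.card_pos]
      exact Nat.pos_of_ne_zero h0
    obtain ⟨e, he⟩ := hne
    have he' : H.edge e ⊆ X := by simpa using he
    have h1 : s ≤ X.card := (hc e).trans (Finset.card_le_card he')
    have h2 : H.edgesIn X ≤ H.numEdges := by
      unfold Hypergraph.edgesIn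
      refine (Finset.card_le_univ _).trans ?_
      simp
    have hs' : (0 : ℚ≥0) < s := by exact_mod_cast hs
    have h1' : (s : ℚ≥0) ≤ X.card := by exact_mod_cast h1
    have h2' : (H.edgesIn X : ℚ≥0) ≤ H.numEdges := by exact_mod_cast h2
    exact div_le_div₀ (by positivity) h2' hs' h1'

/-! ### Alon–Tarsi numbers -/

/-- the ideal generated by the `q`-th powers of the variables -/
noncomputable def powIdeal (F : Type*) [Field F] (n q : ℕ) : Ideal (MvPolynomial (Fin n) F) :=
  Ideal.span (Set.range fun i : Fin n => (X i : MvPolynomial (Fin n) F) ^ q)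

lemma exists_le_of_mem_powIdeal {F : Type*} [Field F] {q : ℕ} {p : MvPolynomial (Fin n) F}
    (hp : p ∈ powIdeal F n q) {α : Fin n →₀ ℕ} (hα : α ∈ p.support) : ∃ i, q ≤ α i := by
  have h : Set.range (fun i : Fin n => (X i : MvPolynomial (Fin n) F) ^ q)
      = (fun s => monomial s (1 : F)) '' (Set.range fun i : Fin n => Finsupp.single i q) := by
    ext x
    constructor
    · rintro ⟨i, rfl⟩
      exact ⟨Finsupp.single i q, ⟨i, rfl⟩, by simp [X_pow_eq_monomial]⟩
    · rintro ⟨_, ⟨i, rfl⟩, rfl⟩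
      exact ⟨i, by simp [X_pow_eq_monomial]⟩
  unfold powIdeal at hp
  rw [h, mem_ideal_span_monomial_image] at hp
  obtain ⟨s, ⟨i, rfl⟩, hi⟩ := hp α hα
  refine ⟨i, ?_⟩
  have := hi i
  simpa using this

lemma le_AT_of_mem_powIdeal {F : Type*} [Field F] {q : ℕ} {p : MvPolynomial (Fin n) F}
    (hp0 : p ≠ 0) (hp : p ∈ powIdeal F n q) : q + 1 ≤ AT p := by
  unfold AT
  have hne : {k | ∃ α ∈ p.support, (∑ i, α i) = p.totalDegree ∧
      k = (Finset.univ.sup fun i => α i) + 1}.Nonempty := by
    have hsupp : p.support.Nonempty := by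
      rw [Finset.nonempty_iff_ne_empty]
      simpa using hp0
    obtain ⟨α, hα, hmax⟩ := Finset.exists_mem_eq_sup p.support hsupp
      (fun s => s.sum fun _ e => e)
    refine ⟨_, α, hα, ?_, rfl⟩
    rw [totalDegree, hmax, Finsupp.sum_fintype]
    simp
  obtain ⟨α, hα, -, hk⟩ := Nat.sInf_mem hne
  rw [hk]
  obtain ⟨i, hi⟩ := exists_le_of_mem_powIdeal hp hα
  have : α i ≤ Finset.univ.sup fun i => α i := Finset.le_sup (f := fun i => α i) (Finset.mem_univ i)
  omega

lemma linear_ne_zero {F : Type*} [Field F] (S : Finset (Fin n)) (a : Fin n → F) (i : Fin n)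
    (hi : i ∈ S) (ha : a i ≠ 0) : (∑ j ∈ S, C (a j) * X j : MvPolynomial (Fin n) F) ≠ 0 := by
  intro h
  have h1 := congrArg (coeff (Finsupp.single i 1)) h
  rw [coeff_sum] at h1
  rw [Finset.sum_eq_single i] at h1
  · simp [coeff_C_mul] at h1
    exact ha h1
  · intro j _ hj
    rw [coeff_C_mul, coeff_X, if_neg, mul_zero]
    intro hh
    exact hj ((Finsupp.single_left_inj one_ne_zero).1 hh)
  · intro hh
    exact absurd hi hh

lemma poly_ne_zero {F : Type*} [Field F] (H : Hypergraph n) (a : Fin H.numEdges → Fin n → F)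
    (ha : H.NonzeroCoeffs a) : H.poly a ≠ 0 := by
  unfold Hypergraph.poly
  rw [Finset.prod_ne_zero_iff]
  intro e _
  have h2 := H.two_le_card e
  have hne : (H.edge e).Nonempty := by
    rw [← Finset.card_pos]; omega
  obtain ⟨i, hi⟩ := hne
  exact linear_ne_zero _ _ i hi (ha e i hi)

/-- In characteristic `p`, the `p^k`-th power of a linear form lies in the ideal generated by the
`p^k`-th powers of the variables. -/
lemma linear_pow_mem {F : Type*} [Field F] (p : ℕ) [Fact p.Prime] [CharP F p] (k : ℕ)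
    (S : Finset (Fin n)) (a : Fin n → F) :
    (∑ j ∈ S, C (a j) * X j : MvPolynomial (Fin n) F) ^ (p ^ k) ∈ powIdeal F n (p ^ k) := by
  have : ExpChar (MvPolynomial (Fin n) F) p := inferInstance
  rw [sum_pow_char_pow]
  refine Ideal.sum_mem _ ?_
  intro j _
  rw [mul_pow]
  exact Ideal.mul_mem_left _ _ (Ideal.subset_span ⟨j, rfl⟩)

/-! ### Many copies of one edge -/

/-- `m` copies of the edge `Fin n`. -/
def copies (n m : ℕ) (hn : 2 ≤ n) : Hypergraph n where
  numEdges := m
  edge := fun _ => Finset.univ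
  two_le_card := by intro _; simpa using hn

theorem unbounded_multi {F : Type*} [Field F] (p : ℕ) [Fact p.Prime] [CharP F p]
    (c : F) (hc0 : c ≠ 0) (hc1 : c ≠ 1) (ε : ℚ≥0) (hε : 0 < ε) (N : ℕ) :
    ∃ (n : ℕ) (H : Hypergraph n) (a : Fin H.numEdges → Fin n → F),
      H.NonzeroCoeffs a ∧ H.FullyUnbalanced a ∧ H.edgeDensity ≤ ε ∧ N ≤ AT (H.poly a) := by
  have hp1 : 1 < p := (Fact.out : p.Prime).one_lt
  have hq : N ≤ p ^ N := (Nat.lt_pow_self hp1).le
  obtain ⟨M, hM⟩ := exists_nat_ge ((p ^ N : ℕ) / ε : ℚ≥0)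
  set n := M + 2 with hn
  have hn2 : 2 ≤ n := by omega
  refine ⟨n, copies n (p ^ N) hn2, fun _ i => if i = ⟨0, by omega⟩ then c else 1, ?_, ?_, ?_, ?_⟩
  · intro e i _
    dsimp only
    split_ifs
    · exact hc0
    · exact one_ne_zero
  · intro e
    refine ⟨⟨0, by omega⟩, Finset.mem_univ _, ⟨1, by omega⟩, Finset.mem_univ _, ?_⟩
    dsimp only
    rw [if_pos rfl, if_neg]
    · exact hc1
    · intro h
      simp at h
  · refine (edgeDensity_le _ n (by omega) ?_).trans ?_
    · intro e; simp [copies]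
    · have hnM : (M : ℚ≥0) ≤ n := by exact_mod_cast (by omega : M ≤ n)
      have hn0 : (0 : ℚ≥0) < n := by exact_mod_cast (by omega : 0 < n)
      rw [div_le_iff₀ hn0]
      have h1 : ((p ^ N : ℕ) : ℚ≥0) / ε ≤ n := hM.trans hnM
      rw [div_le_iff₀ hε] at h1
      rw [mul_comm]
      exact h1
  · refine hq.trans ((Nat.le_succ _).trans ?_)
    refine le_AT_of_mem_powIdeal (poly_ne_zero _ _ ?_) ?_
    · intro e i _
      dsimp only
      split_ifs
      · exact hc0
      · exact one_ne_zero
    · change (∏ _e : Fin (p ^ N), ∑ i : Fin n,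
        C (if i = (⟨0, by omega⟩ : Fin n) then c else 1) * X i) ∈ powIdeal F n (p ^ N)
      rw [Finset.prod_const, Finset.card_univ, Fintype.card_fin]
      exact linear_pow_mem p N Finset.univ
        (fun i => if i = (⟨0, by omega⟩ : Fin n) then c else 1)

/-! ### Pairwise distinct edges -/

/-- The vertex set is `Fin n`; the `m ≤ n` edges are the sets `V \ {j}`, `j < m`. -/
def coatoms (n m : ℕ) (hn : 3 ≤ n) (hm : m ≤ n) : Hypergraph n where
  numEdges := m
  edge := fun e => Finset.univ.erase (Fin.castLE hm e)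
  two_le_card := by
    intro e
    rw [Finset.card_erase_of_mem (Finset.mem_univ _), Finset.card_univ, Fintype.card_fin]
    omega

theorem unbounded_simple {F : Type*} [Field F] [Infinite F] (p : ℕ) [Fact p.Prime] [CharP F p]
    (ε : ℚ≥0) (hε : 0 < ε) (N : ℕ) :
    ∃ (n : ℕ) (H : Hypergraph n) (a : Fin H.numEdges → Fin n → F),
      H.IsSimple ∧ H.NonzeroCoeffs a ∧ H.FullyUnbalanced a ∧ H.edgeDensity ≤ ε ∧
        N ≤ AT (H.poly a) := by
  have hp1 : 1 < p := (Fact.out : p.Prime).one_lt
  have hq : N ≤ p ^ N := (Nat.lt_pow_self hp1).le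
  set q := p ^ N with hqdef
  have hq0 : 0 < q := by positivity
  set m := 2 * q - 1 with hm
  obtain ⟨M, hM⟩ := exists_nat_ge ((m : ℕ) / ε : ℚ≥0)
  set n := m + M + 2 with hn
  have hmn : m ≤ n := by omega
  have hn3 : 3 ≤ n := by omega
  -- distinct field elements `b i`
  obtain ⟨b⟩ : Nonempty (Fin n ↪ F) := by
    have := Infinite.natEmbedding F
    exact ⟨(⟨fun i : Fin n => (i : ℕ), Fin.val_injective⟩ : Fin n ↪ ℕ).trans this⟩
  set H := coatoms n m hn3 hmn with hH
  have hcast : ∀ e : Fin m, (Fin.castLE hmn e : Fin n).val = e.val := fun e => rfl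
  let a : Fin m → Fin n → F := fun e i => b (Fin.castLE hmn e) - b i
  have ha : H.NonzeroCoeffs a := by
    intro e i hi
    have hi' : i ≠ Fin.castLE hmn e := (Finset.mem_erase.1 hi).1
    exact sub_ne_zero.2 fun h => hi' (b.injective h).symm
  refine ⟨n, H, a, ?_, ha, ?_, ?_, ?_⟩
  · intro e f hef
    have hef' : Finset.univ.erase (Fin.castLE hmn e) = Finset.univ.erase (Fin.castLE hmn f) := hef
    by_contra hne
    have h1 : Fin.castLE hmn e ∈ (Finset.univ : Finset (Fin n)).erase (Fin.castLE hmn f) := by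
      refine Finset.mem_erase.2 ⟨?_, Finset.mem_univ _⟩
      intro h
      exact hne (Fin.castLE_injective hmn h)
    rw [← hef'] at h1
    exact (Finset.mem_erase.1 h1).1 rfl
  · intro e
    have hcard : 1 < (H.edge e).card := by
      have := H.two_le_card e
      omega
    obtain ⟨i, hi, j, hj, hij⟩ := Finset.one_lt_card.1 hcard
    refine ⟨i, hi, j, hj, ?_⟩
    intro h
    apply hij
    apply b.injective
    have h' : b (Fin.castLE hmn e) - b i = b (Fin.castLE hmn e) - b j := h
    exact sub_right_inj.1 h'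
  · refine (edgeDensity_le _ (n - 1) (by omega) ?_).trans ?_
    · intro e
      have : (H.edge e).card = n - 1 := by
        change ((Finset.univ : Finset (Fin n)).erase (Fin.castLE hmn e)).card = n - 1
        rw [Finset.card_erase_of_mem (Finset.mem_univ _), Finset.card_univ, Fintype.card_fin]
      rw [this]
    · have hnM : (M : ℚ≥0) ≤ ((n - 1 : ℕ) : ℚ≥0) := by exact_mod_cast (by omega : M ≤ n - 1)
      have hn0 : (0 : ℚ≥0) < ((n - 1 : ℕ) : ℚ≥0) := by exact_mod_cast (by omega : 0 < n - 1)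
      rw [div_le_iff₀ hn0]
      have h1 : (m : ℚ≥0) / ε ≤ ((n - 1 : ℕ) : ℚ≥0) := hM.trans hnM
      rw [div_le_iff₀ hε] at h1
      rw [mul_comm]
      exact h1
  · refine hq.trans ((Nat.le_succ _).trans ?_)
    refine le_AT_of_mem_powIdeal (poly_ne_zero _ _ ha) ?_
    -- the two linear forms
    set U : MvPolynomial (Fin n) F := ∑ i, C (1 : F) * X i with hU
    set W : MvPolynomial (Fin n) F := ∑ i, C (b i) * X i with hW
    have hUq : U ^ q ∈ powIdeal F n q := linear_pow_mem p N _ _
    have hWq : W ^ q ∈ powIdeal F n q := linear_pow_mem p N _ _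
    have hform : ∀ e : Fin m, (∑ i ∈ H.edge e, C (a e i) * X i : MvPolynomial (Fin n) F)
        = C (b (Fin.castLE hmn e)) * U + (-1) * W := by
      intro e
      have h1 : (∑ i ∈ H.edge e, C (a e i) * X i : MvPolynomial (Fin n) F)
          = ∑ i, C (a e i) * X i := by
        change (∑ i ∈ (Finset.univ : Finset (Fin n)).erase (Fin.castLE hmn e),
          C (a e i) * X i : MvPolynomial (Fin n) F) = _
        refine Finset.sum_erase _ ?_
        simp [a]
      rw [h1, hU, hW, Finset.mul_sum, Finset.mul_sum, ← Finset.sum_add_distrib]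
      refine Finset.sum_congr rfl fun i _ => ?_
      simp only [a, map_sub, map_one]
      ring
    have hpoly : H.poly a = ∏ e : Fin m, (C (b (Fin.castLE hmn e)) * U + (-1) * W) := by
      unfold Hypergraph.poly
      exact Finset.prod_congr rfl fun e _ => hform e
    rw [hpoly, Finset.prod_add]
    refine Ideal.sum_mem _ ?_
    intro T _
    rw [Finset.prod_mul_distrib, Finset.prod_mul_distrib, Finset.prod_const, Finset.prod_const,
      Finset.prod_const]
    have hcardT : T.card + (Finset.univ \ T).card = m := by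
      rw [Finset.card_sdiff_of_subset (Finset.subset_univ T), Finset.card_univ, Fintype.card_fin]
      have := Finset.card_le_univ T
      rw [Fintype.card_fin] at this
      omega
    by_cases hT : q ≤ T.card
    · obtain ⟨r, hr⟩ := Nat.exists_eq_add_of_le hT
      rw [hr, pow_add]
      have : (∏ e ∈ T, C (b (Fin.castLE hmn e))) * (U ^ q * U ^ r) *
          ((-1) ^ (Finset.univ \ T).card * W ^ (Finset.univ \ T).card)
          = ((∏ e ∈ T, C (b (Fin.castLE hmn e))) * U ^ r *
          ((-1) ^ (Finset.univ \ T).card * W ^ (Finset.univ \ T).card)) * U ^ q := by ring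
      rw [this]
      exact Ideal.mul_mem_left _ _ hUq
    · have hT' : q ≤ (Finset.univ \ T).card := by omega
      obtain ⟨r, hr⟩ := Nat.exists_eq_add_of_le hT'
      rw [hr, pow_add W]
      have : (∏ e ∈ T, C (b (Fin.castLE hmn e))) * U ^ T.card *
          ((-1) ^ (q + r) * (W ^ q * W ^ r))
          = ((∏ e ∈ T, C (b (Fin.castLE hmn e))) * U ^ T.card *
          ((-1) ^ (q + r) * W ^ r)) * W ^ q := by ring
      rw [this]
      exact Ideal.mul_mem_left _ _ hWq

lemma ringChar_prime (F : Type*) [Field F] (h : ringChar F ≠ 0) : (ringChar F).Prime := by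
  rcases CharP.char_is_prime_or_zero F (ringChar F) with h' | h'
  · exact h'
  · exact absurd h' h

/-- **Q1 of MP_3821a3_co is disproved.**

The first part is the negated form of Q1: there are a field, a hypergraph `H` and a fully unbalanced
hypergraph polynomial `p` of `H` with `AT(p) ≥ 2⌈ed(H)⌉ + 2`.

The second part says how badly the bound fails: over every field `F` of positive characteristic with
more than two elements, and for all `ε > 0` and `N`, there are a hypergraph `H` with `ed(H) ≤ ε` and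
a fully unbalanced hypergraph polynomial `p` of `H` over `F` with `AT(p) ≥ 2⌈ed(H)⌉ + N`; when `F` is
infinite, `H` can be taken without repeated edges. -/
theorem result :
    (∃ (F : Type) (_ : Field F) (n : ℕ) (H : Hypergraph n) (a : Fin H.numEdges → Fin n → F),
      H.NonzeroCoeffs a ∧ H.FullyUnbalanced a ∧ 2 * ⌈H.edgeDensity⌉₊ + 2 ≤ AT (H.poly a)) ∧
    (∀ (F : Type) [Field F], ringChar F ≠ 0 → (∃ c : F, c ≠ 0 ∧ c ≠ 1) →
      ∀ ε : ℚ≥0, 0 < ε → ∀ N : ℕ,
      ∃ (n : ℕ) (H : Hypergraph n) (a : Fin H.numEdges → Fin n → F),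
        (Infinite F → H.IsSimple) ∧ H.NonzeroCoeffs a ∧ H.FullyUnbalanced a ∧
          H.edgeDensity ≤ ε ∧ 2 * ⌈H.edgeDensity⌉₊ + N ≤ AT (H.poly a)) := by
  have h2 : ∀ (F : Type) [Field F], ringChar F ≠ 0 → (∃ c : F, c ≠ 0 ∧ c ≠ 1) →
      ∀ ε : ℚ≥0, 0 < ε → ∀ N : ℕ,
      ∃ (n : ℕ) (H : Hypergraph n) (a : Fin H.numEdges → Fin n → F),
        (Infinite F → H.IsSimple) ∧ H.NonzeroCoeffs a ∧ H.FullyUnbalanced a ∧
          H.edgeDensity ≤ ε ∧ 2 * ⌈H.edgeDensity⌉₊ + N ≤ AT (H.poly a) := by
    intro F _ hF hc ε hε N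
    obtain ⟨c, hc0, hc1⟩ := hc
    have : Fact (ringChar F).Prime := ⟨ringChar_prime F hF⟩
    have hle : ∀ x : ℚ≥0, x ≤ ε → 2 * ⌈x⌉₊ + N ≤ 2 * ⌈ε⌉₊ + N := by
      intro x hx
      have := Nat.ceil_mono hx
      omega
    by_cases hinf : Infinite F
    · obtain ⟨n, H, a, h0, h1, h2, h3, h4⟩ :=
        unbounded_simple (F := F) (ringChar F) ε hε (2 * ⌈ε⌉₊ + N)
      exact ⟨n, H, a, fun _ => h0, h1, h2, h3, (hle _ h3).trans h4⟩
    · obtain ⟨n, H, a, h1, h2, h3, h4⟩ :=
        unbounded_multi (ringChar F) c hc0 hc1 ε hε (2 * ⌈ε⌉₊ + N)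
      exact ⟨n, H, a, fun h => absurd h hinf, h1, h2, h3, (hle _ h3).trans h4⟩
  refine ⟨?_, h2⟩
  have hc0 : (2 : ZMod 3) ≠ 0 := by decide
  have hc1 : (2 : ZMod 3) ≠ 1 := by decide
  have : Fact (Nat.Prime 3) := ⟨Nat.prime_three⟩
  obtain ⟨n, H, a, -, h1, h2, -, h4⟩ :=
    h2 (ZMod 3) (by rw [ZMod.ringChar_zmod_n]; norm_num) ⟨2, hc0, hc1⟩ 1 one_pos 2
  exact ⟨ZMod 3, inferInstance, n, H, a, h1, h2, h4⟩

end Pool.Agent.Results.MP_3821a3_co.PosCharCounterexample
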